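import Pool.Agent.Helper4.P11.StD
import Pool.Agent.Helper84.P11.D1

/-!
# Project P11 (levels `11^n`), module TRF: values of the leading forms on the binomial basis
-/

set_option autoImplicit false

namespace Pool.Agent.Helper36.P11

open Pool.Agent.Helper4.P11 Pool.Agent.Helper84.P11

/-! ### Identities for commuting elements -/

section comm

private theorem tr_ring {E : Type} [Ring E] [Algebra (ZMod 11) E] (D Y : E) (h : D * Y = Y * D) :
    ∃ (S : Type) (_ : CommRing S) (_ : Algebra (ZMod 11) S) (φ : S →ₐ[ZMod 11] E) (x y : S), φ x = D ∧ φ y = Y := by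
  have hc : ∀ a ∈ ({D, Y} : Set E), ∀ b ∈ ({D, Y} : Set E), a * b = b * a := by
    rintro a (rfl | rfl) b (rfl | rfl)
    · rfl
    · exact h
    · exact h.symm
    · rfl
  have hm : IsMulCommutative (Algebra.adjoin (ZMod 11) ({D, Y} : Set E)) := Algebra.isMulCommutative_adjoin (ZMod 11) hc
  let c : CommRing (Algebra.adjoin (ZMod 11) ({D, Y} : Set E)) :=
    { (inferInstance : Ring (Algebra.adjoin (ZMod 11) ({D, Y} : Set E))) with
      mul_comm := fun a b => hm.is_comm.comm a b }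
  exact ⟨Algebra.adjoin (ZMod 11) {D, Y}, c, inferInstance, (Algebra.adjoin (ZMod 11) {D, Y}).val,
    ⟨D, Algebra.subset_adjoin (by simp)⟩, ⟨Y, Algebra.subset_adjoin (by simp)⟩, rfl, rfl⟩

variable {S : Type} [CommRing S] [Algebra (ZMod 11) S]

/-- the lowest term of a form -/
private theorem sum_low (x y : S) (q : ℕ → ZMod 11) (n l : ℕ) (hl : l ≤ n) (hq : ∀ i < l, q i = 0) :
    ∃ R : S, ∑ i ∈ Finset.range (n + 1), q i • (x ^ (n - i) * y ^ i) =
      q l • (x ^ (n - l) * y ^ l) + R * y ^ (l + 1) := by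
  obtain ⟨m, rfl⟩ : ∃ m, n = l + m := ⟨n - l, by omega⟩
  refine ⟨∑ i ∈ Finset.range m, q (l + 1 + i) • (x ^ (l + m - (l + 1 + i)) * y ^ i), ?_⟩
  rw [show l + m + 1 = (l + 1) + m by ring, Finset.sum_range_add, Finset.sum_range_succ,
    Finset.sum_mul]
  have e0 : ∑ i ∈ Finset.range l, q i • (x ^ (l + m - i) * y ^ i) = 0 := by
    refine Finset.sum_eq_zero fun i hi => ?_
    rw [hq i (Finset.mem_range.1 hi), zero_smul]
  rw [e0, zero_add]
  congr 1
  refine Finset.sum_congr rfl fun i _ => ?_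
  rw [smul_mul_assoc, mul_assoc, ← pow_add]
  congr 3
  ring

omit [Algebra (ZMod 11) S] in
private theorem pw (x u y : S) (j : ℕ) : ∃ R : S, (x + u * y) ^ j = x ^ j + R * y := by
  have h := sub_dvd_pow_sub_pow (x + u * y) x j
  rw [add_sub_cancel_left] at h
  obtain ⟨R, hR⟩ := h
  refine ⟨u * R, ?_⟩
  linear_combination hR

private theorem key (x y M R0 : S) (a : ZMod 11) (n l i j : ℕ)
    (hM : M = a • (x ^ n * y ^ l) + R0 * y ^ (l + 1)) : ∃ R : S,
    M * (x * y) ^ i * (x ^ 11 * y + x * y ^ 11) ^ j =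
      a • (x ^ (n + i + 11 * j) * y ^ (i + j + l)) + R * y ^ (i + j + l + 1) := by
  have e : x ^ 11 * y + x * y ^ 11 = x * y * (x ^ 10 + y ^ 9 * y) := by ring
  obtain ⟨R', hR'⟩ := pw (x ^ 10) (y ^ 9) y j
  refine ⟨R0 * x ^ (i + j) * ((x ^ 10) ^ j + R' * y) + algebraMap (ZMod 11) S a * x ^ (n + i + j) * R', ?_⟩
  rw [e, mul_pow (x * y) _ j, hR', hM]
  simp only [Algebra.smul_def]
  generalize algebraMap (ZMod 11) S a = a'
  ring

end comm

section forms

variable {r s : ℕ}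

private theorem low_le (c : ℕ) : bM c ≤ nOM c := Nat.le_add_left _ _

private theorem low_zero {c : ℕ} (hc : c ≤ 9) (f : Fin 3) : ∀ i < bM c, qOM c f.val i = 0 := by
  interval_cases c <;> fin_cases f <;> decide

private theorem form (hl : S11Low0) (c i j : ℕ) (f : Fin 3) (hc : c ≤ 9) :
    ∃ R : Module.End (ZMod 11) (Fn11 (11 ^ r) (11 ^ s)), MoM c f.val * QoM ^ i * LoM ^ j =
      ((qOM c f.val (bM c) : ℤ) : ZMod 11) •
        (dX ^ (nOM c - bM c + i + 11 * j) * dY ^ (i + j + bM c)) +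
      R * dY ^ (i + j + bM c + 1) := by
  obtain ⟨S, _, _, φ, x, y, hx, hy⟩ := tr_ring (dX : Module.End (ZMod 11) (Fn11 (11 ^ r) (11 ^ s))) dY
    (hl r s).2.2.2.2.2.2.2.2.1
  obtain ⟨R0, hR0⟩ := sum_low x y (fun k => ((qOM c f.val k : ℤ) : ZMod 11)) (nOM c) (bM c)
    (low_le c) (fun k hk => by rw [low_zero hc f k hk, Int.cast_zero])
  obtain ⟨R, hR⟩ := key x y _ _ _ (nOM c - bM c) (bM c) i j hR0
  refine ⟨φ R, ?_⟩
  have h := congrArg φ hR
  have e : (MoM c f.val : Module.End (ZMod 11) (Fn11 (11 ^ r) (11 ^ s))) =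
      φ (∑ i ∈ Finset.range (nOM c + 1), ((qOM c f.val i : ℤ) : ZMod 11) • (x ^ (nOM c - i) * y ^ i)) := by
    unfold MoM
    rw [map_sum]
    apply Finset.sum_congr rfl
    intro k _
    rw [map_smul, map_mul, map_pow, map_pow, hx, hy]
  rw [map_mul, map_mul, ← e] at h
  simp only [map_pow, map_add, map_mul, map_smul, hx, hy] at h
  exact h

/-! ### Values on the binomial basis -/

private theorem dy_pow (hb : S11Bb) (p q m : ℕ) (hp : p < 11 ^ r) (hq : m + q < 11 ^ s) :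
    (dY ^ m : Module.End (ZMod 11) (Fn11 (11 ^ r) (11 ^ s))) (bb11 p (m + q)) = bb11 p q := by
  induction m with
  | zero =>
    rw [pow_zero, zero_add]
    rfl
  | succ m ih =>
    have h1 : m + 1 + q = (m + q) + 1 := by ring
    rw [pow_succ, Module.End.mul_apply, h1,
      (hb r s).2.2.1 p (m + q) hp (by omega)]
    exact ih (by omega)

private theorem dx_pow (hb : S11Bb) (p q m : ℕ) (hq : q < 11 ^ s) (hp : m + p < 11 ^ r) :
    (dX ^ m : Module.End (ZMod 11) (Fn11 (11 ^ r) (11 ^ s))) (bb11 (m + p) q) = bb11 p q := by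
  induction m with
  | zero =>
    rw [pow_zero, zero_add]
    rfl
  | succ m ih =>
    have h1 : m + 1 + p = (m + p) + 1 := by ring
    rw [pow_succ, Module.End.mul_apply, h1,
      (hb r s).2.1 (m + p) q (by omega) hq]
    exact ih (by omega)

private theorem dy_kill (hb : S11Bb) (p q m : ℕ) (hp : p < 11 ^ r) (hq : q < 11 ^ s) (h : q < m) :
    (dY ^ m : Module.End (ZMod 11) (Fn11 (11 ^ r) (11 ^ s))) (bb11 p q) = 0 := by
  obtain ⟨c, rfl⟩ : ∃ c, m = c + (1 + q) := ⟨m - (1 + q), by omega⟩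
  rw [pow_add, pow_add, Module.End.mul_apply, Module.End.mul_apply]
  have h1 := dy_pow (r := r) (s := s) hb p 0 q hp (by omega)
  rw [add_zero] at h1
  rw [h1, pow_one, (hb r s).2.2.2.2.1 p hp, map_zero]

private theorem dx_kill (hb : S11Bb) (p q m : ℕ) (hp : p < 11 ^ r) (hq : q < 11 ^ s) (h : p < m) :
    (dX ^ m : Module.End (ZMod 11) (Fn11 (11 ^ r) (11 ^ s))) (bb11 p q) = 0 := by
  obtain ⟨c, rfl⟩ : ∃ c, m = c + (1 + p) := ⟨m - (1 + p), by omega⟩
  rw [pow_add, pow_add, Module.End.mul_apply, Module.End.mul_apply]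
  have h1 := dx_pow (r := r) (s := s) hb 0 q p hq (by omega)
  rw [add_zero] at h1
  rw [h1, pow_one, (hb r s).2.2.2.1 q hq, map_zero]

private theorem kil (hb : S11Bb) (O : Module.End (ZMod 11) (Fn11 (11 ^ r) (11 ^ s))) (A B m : ℕ)
    (hA : A < 11 ^ r) (hB : B < 11 ^ s) (h : B < m) :
    (O * dY ^ m : Module.End (ZMod 11) (Fn11 (11 ^ r) (11 ^ s))) (bb11 A B) = 0 := by
  rw [Module.End.mul_apply, dy_kill hb A B m hA hB h, map_zero]

/-- value of the monomial of the point itself -/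
private theorem val (hb : S11Bb) (A B : ℕ) (hA : A < 11 ^ r) (hB : B < 11 ^ s) :
    (dX ^ A * dY ^ B : Module.End (ZMod 11) (Fn11 (11 ^ r) (11 ^ s))) (bb11 A B) = bb11 0 0 := by
  have h1 := dy_pow (r := r) (s := s) hb A 0 B hA (by omega)
  have h2 := dx_pow (r := r) (s := s) hb 0 0 A (by omega) (by omega)
  rw [add_zero] at h1 h2
  rw [Module.End.mul_apply, h1, h2]

private theorem one : ((bb11 0 0 : Fn11 (11 ^ r) (11 ^ s)) 0 0) = 1 := by simp [bb11]

/-! ### Degrees -/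

private theorem lw_zero (k : ℤ) : Lw (0 : Module.End (ZMod 11) (Fn11 (11 ^ r) (11 ^ s))) k :=
  fun _ _ _ => Submodule.zero_mem _

private theorem lw_pow (hl : S11Low0) {O : Module.End (ZMod 11) (Fn11 (11 ^ r) (11 ^ s))} {k : ℤ} (h : Lw O k) (i : ℕ) :
    Lw (O ^ i) ((i : ℤ) * k) := by
  induction i with
  | zero =>
    rw [pow_zero, Nat.cast_zero, zero_mul]
    exact (hl r s).2.2.2.2.2.1
  | succ i ih =>
    have h1 : ((i + 1 : ℕ) : ℤ) * k = (i : ℤ) * k + k := by
      push_cast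
      ring
    rw [pow_succ, h1]
    exact (hl r s).1 _ _ _ _ ih h

private theorem lw_mul (hl : S11Low0) {O O' : Module.End (ZMod 11) (Fn11 (11 ^ r) (11 ^ s))} {k k' k'' : ℤ} (h : Lw O k)
    (h' : Lw O' k') (e : k + k' = k'') : Lw (O * O') k'' := by
  rw [← e]
  exact (hl r s).1 _ _ _ _ h h'

private theorem lw_add (hl : S11Low0) {O O' : Module.End (ZMod 11) (Fn11 (11 ^ r) (11 ^ s))} {k : ℤ} (h : Lw O k)
    (h' : Lw O' k) : Lw (O + O') k := (hl r s).2.1 _ _ _ h h'

private theorem lw_smul (hl : S11Low0) (c : ZMod 11) {O : Module.End (ZMod 11) (Fn11 (11 ^ r) (11 ^ s))} {k : ℤ}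
    (h : Lw O k) : Lw (c • O) k := (hl r s).2.2.1 _ _ _ h

private theorem lw_x (hl : S11Low0) (i : ℕ) : Lw (dX ^ i : Module.End (ZMod 11) (Fn11 (11 ^ r) (11 ^ s))) i := by
  have h := lw_pow hl (hl r s).2.2.2.2.2.2.1 i
  rwa [mul_one] at h

private theorem lw_y (hl : S11Low0) (i : ℕ) : Lw (dY ^ i : Module.End (ZMod 11) (Fn11 (11 ^ r) (11 ^ s))) i := by
  have h := lw_pow hl (hl r s).2.2.2.2.2.2.2.1 i
  rwa [mul_one] at h

private theorem lw_x1 (hl : S11Low0) : Lw (dX : Module.End (ZMod 11) (Fn11 (11 ^ r) (11 ^ s))) 1 :=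
  (hl r s).2.2.2.2.2.2.1

private theorem lw_y1 (hl : S11Low0) : Lw (dY : Module.End (ZMod 11) (Fn11 (11 ^ r) (11 ^ s))) 1 :=
  (hl r s).2.2.2.2.2.2.2.1

private theorem lw_Q (hl : S11Low0) : Lw (QoM : Module.End (ZMod 11) (Fn11 (11 ^ r) (11 ^ s))) 2 :=
  lw_mul hl (lw_x1 hl) (lw_y1 hl) (by norm_num)

private theorem lw_L (hl : S11Low0) : Lw (LoM : Module.End (ZMod 11) (Fn11 (11 ^ r) (11 ^ s))) 12 :=
  lw_add hl (lw_mul hl (lw_x hl 11) (lw_y1 hl) (by norm_num))
    (lw_mul hl (lw_x1 hl) (lw_y hl 11) (by norm_num))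

private theorem lw_sum (hl : S11Low0) {ι : Type} (T : Finset ι) (O : ι → Module.End (ZMod 11) (Fn11 (11 ^ r) (11 ^ s)))
    (k : ℤ) (h : ∀ t ∈ T, Lw (O t) k) : Lw (∑ t ∈ T, O t) k := by
  classical
  induction T using Finset.induction_on with
  | empty =>
    rw [Finset.sum_empty]
    exact lw_zero k
  | insert a T ha ih =>
    rw [Finset.sum_insert ha]
    exact lw_add hl (h a (Finset.mem_insert_self a T)) (ih fun t ht => h t (Finset.mem_insert_of_mem ht))

private theorem lw_M (hl : S11Low0) (c f : ℕ) : Lw (MoM c f : Module.End (ZMod 11) (Fn11 (11 ^ r) (11 ^ s))) (nOM c) := by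
  unfold MoM
  apply lw_sum hl
  intro k hk
  apply lw_smul hl
  apply lw_mul hl (lw_x hl _) (lw_y hl _)
  have h1 : k ≤ nOM c := by
    have := Finset.mem_range.1 hk
    omega
  push_cast [Nat.cast_sub h1]
  ring

end forms

/-- TRF. -/
theorem hTrf : TTrf := by
  have hl : S11Low0 := low0
  have hb : S11Bb := bb
  intro r s
  refine ⟨?_, ?_⟩
  · intro c i j f hc
    have e : ((dgM c i j : ℕ) : ℤ) = (nOM c : ℤ) + (i : ℤ) * 2 + (j : ℤ) * 12 := by
      unfold dgM nOM
      push_cast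
      ring
    rw [e]
    exact lw_mul hl (lw_mul hl (lw_M hl c f.val) (lw_pow hl (lw_Q hl) i) rfl) (lw_pow hl (lw_L hl) j) rfl
  · intro c i j A B f hc hA hB hAB
    obtain ⟨R, hR⟩ := form (r := r) (s := s) hl c i j f hc
    have hd : A + B = aM c + bM c + 2 * i + 12 * j := by
      rw [hAB]
      rfl
    have hn : nOM c - bM c = aM c := Nat.add_sub_cancel _ _
    rw [hR]
    simp only [LinearMap.add_apply, LinearMap.smul_apply, Pi.add_apply, Pi.smul_apply]
    unfold rhM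
    refine ⟨fun h => ?_, fun h => ?_⟩
    · rw [kil hb _ A B _ hA hB (by omega), kil hb _ A B _ hA hB (by omega)]
      simp
    · have hA' : nOM c - bM c + i + 11 * j = A := by omega
      have hB' : i + j + bM c = B := by omega
      rw [hA', hB', val hb A B hA hB, kil hb _ A B _ hA hB (by omega), one]
      simp

end Pool.Agent.Helper36.P11
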